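import Pool.Agent.W2helper30.FP.Sums
import Pool.Agent.W2helper30.FP.Law
import Pool.Agent.W2helper30.AN.Ex

/-!
# Plane fat points whose multiplicities come from very sparse families

The members `c₀ + κ ⌊U f(x₀ + 1 / i)⌋`, `M < i ≤ 2 M`, of the sparse families of an analytic function `f` (`U` may be as large as
`exp ((log M) ^ (3 / 2 - ε₀))`) are taken (1) as the common multiplicity of `n` points of the plane, (2) as the sum of the
multiplicities of `n` points, which all are `m` or `m + 1`. In both cases, general fat points impose maximal conditions in every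
degree for a positive proportion of the members, in progressions, and for many numbers `n` of points at once.

Method: `n` fat points of these kinds can fail to impose maximal conditions only if the member times a fixed quadratic irrational
lies in a certain arc modulo one (library: `Pool.Agent.N141.SG`). Vinogradov's mean value method gives the exponential sums of the
members at irrational frequencies (`Pool.Agent.W2helper30.AN`); the numbers `1 / √n` and `1` are linearly independent over `ℚ` if the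
squarefree parts of the `n` are different; simultaneous approximation gives the common difference of the progressions.
-/

set_option autoImplicit false

namespace Pool.Agent.Results.MP_1dafdd_ag.AnalyticSparsePlane

open MvPolynomial
open Pool.Agent.N794.DG (Always meas law meas_mono)
open Pool.Agent.W2helper30.AN (Ord Rg vl)

/-- `f` is real analytic at `x₀`, and `K ≥ 1` is the order of the zero of `f - f x₀` at `x₀` -/
def OrderAt (f : ℝ → ℝ) (x₀ : ℝ) (K : ℕ) : Prop :=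
  AnalyticAt ℝ f x₀ ∧ 1 ≤ K ∧ (∀ j : ℕ, 1 ≤ j → j < K → iteratedDeriv j f x₀ = 0) ∧
    iteratedDeriv K f x₀ ≠ 0

/-- the range of the parameters: `M ^ (K + δ₀) ≤ U ≤ exp ((log M) ^ (3 / 2 - ε₀))` -/
def InRange (K : ℕ) (δ₀ ε₀ : ℝ) (M : ℕ) (U : ℝ) : Prop :=
  (M : ℝ) ^ ((K : ℝ) + δ₀) ≤ U ∧ U ≤ Real.exp ((Real.log M) ^ (3 / 2 - ε₀))

/-- the members of the family -/
noncomputable def member (f : ℝ → ℝ) (x₀ U : ℝ) (c₀ κ : ℤ) (i : ℕ) : ℤ :=
  c₀ + κ * ⌊U * f (x₀ + 1 / i)⌋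

/-- Forms of degree `d` vanishing to order at least `w i` at the points `(P i 0 : P i 1 : 1)`. -/
noncomputable def forms {n : ℕ} (P : Fin n → Fin 2 → ℂ) (d : ℕ) (w : Fin n → ℕ) :
    Submodule ℂ (MvPolynomial (Fin 3) ℂ) :=
  homogeneousSubmodule (Fin 3) ℂ d ⊓
    Submodule.restrictScalars ℂ
      (⨅ i : Fin n, (Ideal.span {X 0 - C (P i 0) * X 2, X 1 - C (P i 1) * X 2} :
        Ideal (MvPolynomial (Fin 3) ℂ)) ^ (w i))

/-- For `n` general points (one nonempty open set for all degrees) of the plane, the fat point scheme with the multiplicities `w`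
imposes maximal conditions in every degree `d`. -/
def MaximalConditions {n : ℕ} (w : Fin n → ℕ) : Prop :=
  ∃ F : MvPolynomial (Fin n × Fin 2) ℂ, F ≠ 0 ∧ ∀ P : Fin n → Fin 2 → ℂ,
    MvPolynomial.eval (fun ij : Fin n × Fin 2 => P ij.1 ij.2) F ≠ 0 →
    ∀ d : ℕ, (Module.finrank ℂ ↥(forms P d w) : ℤ) =
      max 0 (((d + 2).choose 2 : ℤ) - ∑ i, ((w i + 1).choose 2 : ℤ))

/-- All vectors of `n` positive multiplicities with sum `W` which take at most two consecutive values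
`m`, `m + 1` impose maximal conditions in every degree. -/
def Good (n W : ℕ) : Prop :=
  ∀ m : ℕ, 0 < m → ∀ w : Fin n → ℕ, (∀ i, w i = m ∨ w i = m + 1) → ∑ i, w i = W → MaximalConditions w

open Classical in
/-- The bound for the proportion of the bad common multiplicities of `n` points. -/
noncomputable def badU (n : ℕ) : ℝ :=
  if 37 ≤ n ∨ n = 13 ∨ n = 21 ∨ IsSquare n then 0
  else if n = 11 ∨ n = 15 then (√(n : ℝ) - 3) / 6
  else (min (√(n : ℝ) - 3) (2 / 3 + 9 / (4 * √(n : ℝ))) +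
    min (√(n : ℝ) - 3) (2 / 3 + 1 / (4 * √(n : ℝ)))) / 2

open Classical in
/-- The bound for the proportion of the bad sums for `n` points. -/
noncomputable def bad (n : ℕ) : ℝ :=
  if IsSquare n then 0
  else (min (√(n : ℝ) - 3) (2 / 3 + 9 / (4 * √(n : ℝ))) +
    min (√(n : ℝ) - 3) (2 / 3 + 1 / (4 * √(n : ℝ)))) / 2

theorem maximal_of {n : ℕ} {w : Fin n → ℕ} (h : Pool.Agent.N141.SG.ExN w) : MaximalConditions w := by
  obtain ⟨F, hF, hF'⟩ := h
  refine ⟨F.map (algebraMap ℚ ℂ), Pool.Agent.H932R3.map_ne_zero_of hF, fun P hP d => ?_⟩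
  rw [MvPolynomial.eval_map] at hP
  have h1 := hF' P hP d
  unfold Pool.Agent.H932R3.ExpDim at h1
  unfold forms
  rw [h1]
  have e : ∑ i, ((w i + 1).choose 2 : ℤ) = ((∑ i, (w i + 1).choose 2 : ℕ) : ℤ) := by
    push_cast
    rfl
  rw [e]
  omega

theorem good_of {n W : ℕ} (h : Pool.Agent.N141.SG.GoodN n W) : Good n W :=
  fun m hm w hw hsum => maximal_of (h m hm w hw hsum)

theorem uni_of {n m : ℕ} (h : Pool.Agent.N141.SG.Ex n m) : MaximalConditions (fun _ : Fin n => m) :=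
  maximal_of h

lemma bad_eq (n : ℕ) : bad n = Pool.Agent.N141.SG.badN n := by
  unfold bad Pool.Agent.N141.SG.badN
  rfl

lemma badU_eq (n : ℕ) : badU n = Pool.Agent.N141.SG.badU n := by
  unfold badU Pool.Agent.N141.SG.badU
  rfl

theorem bad_ten : bad 10 < 0.163 := by
  have h1 : √((10 : ℕ) : ℝ) < 3.163 := by
    rw [Real.sqrt_lt' (by norm_num)]
    norm_num
  have h0 : ¬ IsSquare 10 := by
    rintro ⟨k, hk⟩
    have : k ≤ 3 := by nlinarith
    interval_cases k <;> omega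
  unfold bad
  rw [if_neg h0]
  have h2 := min_le_left (√((10 : ℕ) : ℝ) - 3) (2 / 3 + 9 / (4 * √((10 : ℕ) : ℝ)))
  have h3 := min_le_left (√((10 : ℕ) : ℝ) - 3) (2 / 3 + 1 / (4 * √((10 : ℕ) : ℝ)))
  linarith

/-- counting the members with a property -/
lemma count_eq {M : ℕ} (hM : 0 < M) (x : ℕ → ℕ) (P : ℕ → Prop) :
    ({i : ℕ | M < i ∧ i ≤ 2 * M ∧ P (x i)}.ncard : ℝ) =
      M * meas (law (Finset.Ioc M (2 * M)) (fun _ => 1 / (M : ℝ)) x) P := by
  classical
  rw [Pool.Agent.W2helper30.FP.meas_law, ← Finset.sum_filter, Finset.sum_const, nsmul_eq_mul]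
  have e : {i : ℕ | M < i ∧ i ≤ 2 * M ∧ P (x i)} =
      (((Finset.Ioc M (2 * M)).filter (fun i => P (x i)) : Finset ℕ) : Set ℕ) := by
    ext i
    simp [and_assoc]
  rw [e, Set.ncard_coe_finset]
  have hM' : (M : ℝ) ≠ 0 := by exact_mod_cast hM.ne'
  field_simp

/-- **Maximal conditions in every degree along very sparse families of multiplicities.**
Let `f` be real analytic at `x₀`, and let `K` be the order of `f - f x₀` at `x₀`; let `δ₀ > 0`, `0 < ε₀ < 1 / 2` and `κ ≠ 0` be fixed;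
let `M` be large, `M ^ (K + δ₀) ≤ U ≤ exp ((log M) ^ (3 / 2 - ε₀))`, and let `c₀` be an integer such that the integers
`m_i = c₀ + κ ⌊U f(x₀ + 1 / i)⌋`, `M < i ≤ 2 M`, are not negative.
(1) For all `k` and `δ > 0` there is a step `h ≥ 1` (independent of all these data) such that for every `n ≥ 10`, for all the `i` but
at most `(badU n + δ) M`, `n` general points of the plane with one of the multiplicities `m_i, m_i + h, …, m_i + k h` impose maximal
conditions in EVERY degree; for at least `M / 10 ^ 65` of the `i` this holds for ALL `n ≥ 10` at once.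
(2) Let `F` be a finite set of numbers `n ≥ 10`. There is `c > 0` such that for all `k` and `δ > 0` there is a step `h ≥ 1` such that
for every `n ∈ F`, for all the `i` but at most `(bad n + δ) M`, `n` general points of the plane whose multiplicities take at most
two consecutive values and have one of the sums `m_i, m_i + h, …, m_i + k h` impose maximal conditions in EVERY degree; if no
product of two different members of `F` is a square, then for at least `c M` of the `i` this holds for ALL `n ∈ F` at once.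
Every function `f` which is real analytic at `x₀` and not constant near `x₀` qualifies, with a suitable `K`. -/
theorem result :
    (∀ (k : ℕ) (δ : ℝ), 0 < δ → ∃ h : ℕ, 1 ≤ h ∧
      ∀ (f : ℝ → ℝ) (x₀ : ℝ) (K : ℕ), OrderAt f x₀ K → ∀ δ₀ ε₀ : ℝ, 0 < δ₀ → 0 < ε₀ → ε₀ < 1 / 2 →
      ∀ (κ : ℤ), κ ≠ 0 → ∃ M₀ : ℕ, ∀ M : ℕ, M₀ ≤ M → ∀ U : ℝ, InRange K δ₀ ε₀ M U →
      ∀ c₀ : ℤ, (∀ i : ℕ, M < i → i ≤ 2 * M → 0 ≤ member f x₀ U c₀ κ i) →
        (∀ n : ℕ, 10 ≤ n →
          ({i : ℕ | M < i ∧ i ≤ 2 * M ∧ ∃ j ≤ k, ¬ MaximalConditions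
            (fun _ : Fin n => (member f x₀ U c₀ κ i).toNat + j * h)}.ncard : ℝ) ≤ (badU n + δ) * M) ∧
        (M : ℝ) / 10 ^ 65 ≤
          ({i : ℕ | M < i ∧ i ≤ 2 * M ∧ 1 ≤ (member f x₀ U c₀ κ i).toNat ∧
            ∀ j ≤ k, ∀ n : ℕ, 10 ≤ n → MaximalConditions
              (fun _ : Fin n => (member f x₀ U c₀ κ i).toNat + j * h)}.ncard : ℝ)) ∧
    (∀ F : Finset ℕ, (∀ n ∈ F, 10 ≤ n) → ∃ c : ℝ, 0 < c ∧ ∀ (k : ℕ) (δ : ℝ), 0 < δ → ∃ h : ℕ, 1 ≤ h ∧
      ∀ (f : ℝ → ℝ) (x₀ : ℝ) (K : ℕ), OrderAt f x₀ K → ∀ δ₀ ε₀ : ℝ, 0 < δ₀ → 0 < ε₀ → ε₀ < 1 / 2 →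
      ∀ (κ : ℤ), κ ≠ 0 → ∃ M₀ : ℕ, ∀ M : ℕ, M₀ ≤ M → ∀ U : ℝ, InRange K δ₀ ε₀ M U →
      ∀ c₀ : ℤ, (∀ i : ℕ, M < i → i ≤ 2 * M → 0 ≤ member f x₀ U c₀ κ i) →
        (∀ n ∈ F, ({i : ℕ | M < i ∧ i ≤ 2 * M ∧
            ∃ j ≤ k, ¬ Good n ((member f x₀ U c₀ κ i).toNat + j * h)}.ncard : ℝ) ≤ (bad n + δ) * M) ∧
        ((∀ n ∈ F, ∀ n' ∈ F, n ≠ n' → ¬ IsSquare (n * n')) →
          c * M ≤ ({i : ℕ | M < i ∧ i ≤ 2 * M ∧
            ∀ n ∈ F, ∀ j ≤ k, Good n ((member f x₀ U c₀ κ i).toNat + j * h)}.ncard : ℝ))) ∧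
    (∀ n : ℕ, 10 ≤ n → bad n < 1 ∧ badU n < 1) ∧ bad 10 < 0.163 ∧
    (badU 10 < 0.163 ∧ badU 11 < 0.053 ∧ badU 12 < 0.465 ∧ badU 14 < 0.738 ∧ badU 15 < 0.146) ∧
    (∀ (f : ℝ → ℝ) (x₀ : ℝ), AnalyticAt ℝ f x₀ → (¬ ∀ᶠ x in nhds x₀, f x = f x₀) → ∃ K : ℕ, OrderAt f x₀ K) ∧
    (∀ (f : ℝ → ℝ) (x₀ : ℝ), AnalyticAt ℝ f x₀ → deriv f x₀ ≠ 0 → OrderAt f x₀ 1) := by
  refine ⟨fun k δ hδ => ?_, fun F hF => ?_, fun n hn => ⟨?_, ?_⟩, bad_ten, ?_,
    fun f x₀ h1 h2 => Pool.Agent.W2helper30.AN.ord_exists h1 h2,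
    fun f x₀ h1 h2 => Pool.Agent.W2helper30.AN.ord_one h1 h2⟩
  · obtain ⟨h, hh, hA⟩ := Pool.Agent.W2helper30.FP.always_prog k hδ
    refine ⟨h, hh, fun f x₀ K hf δ₀ ε₀ hδ₀ hε₀ hε₀2 κ hκ => ?_⟩
    have hf' : Ord f x₀ K := hf
    obtain ⟨M₀, h1⟩ := Pool.Agent.W2helper30.FP.always_an hA hf' δ₀ ε₀ hδ₀ hε₀ hε₀2 κ hκ
    refine ⟨M₀ + 1, fun M hM U hU c₀ hc₀ => ?_⟩
    have hM1 : 0 < M := by omega
    have hM0 : (0 : ℝ) ≤ M := Nat.cast_nonneg M
    have h2 := h1 M (by omega) U ⟨hU.1, hU.2⟩ c₀ (fun i hi => by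
      rw [Finset.mem_Ioc] at hi
      exact hc₀ i hi.1 hi.2)
    have hnn : ∀ m, 0 ≤ (law (Finset.Ioc M (2 * M)) (fun _ => 1 / (M : ℝ))
        (fun i => (c₀ + κ * vl f x₀ U i).toNat)) m :=
      Pool.Agent.N794.DG.law_nonneg (fun _ _ => by positivity) _
    refine ⟨fun n hn => ?_, ?_⟩
    · have h3 := (meas_mono hnn (P := fun m => ∃ j ≤ k, ¬ MaximalConditions (fun _ : Fin n => m + j * h))
        (R := fun m => ∃ j ≤ k, ¬ Pool.Agent.N141.SG.Ex n (m + j * h)) (fun m hm => by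
          obtain ⟨j, hj, hm⟩ := hm
          exact ⟨j, hj, fun h3 => hm (uni_of h3)⟩)).trans (h2.1 n hn)
      have h4 := count_eq hM1 (fun i => (member f x₀ U c₀ κ i).toNat)
        (fun m => ∃ j ≤ k, ¬ MaximalConditions (fun _ : Fin n => m + j * h))
      refine (le_of_eq h4).trans ?_
      rw [badU_eq, mul_comm]
      exact mul_le_mul_of_nonneg_right h3 hM0
    · have h3 := h2.2.trans (meas_mono hnn (P := fun m => 1 ≤ m ∧
          ∀ j ≤ k, Pool.Agent.N141.SG.Tgt ((m + j * h : ℕ) : ℤ))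
        (R := fun m => 1 ≤ m ∧ ∀ j ≤ k, ∀ n : ℕ, 10 ≤ n → MaximalConditions (fun _ : Fin n => m + j * h)) (fun m hm =>
          ⟨hm.1, fun j hj n hn => uni_of
            (Pool.Agent.N141.SG.every (hm.2 j hj) (hm.1.trans (Nat.le_add_right _ _)) hn)⟩))
      have h4 := count_eq hM1 (fun i => (member f x₀ U c₀ κ i).toNat)
        (fun m => 1 ≤ m ∧ ∀ j ≤ k, ∀ n : ℕ, 10 ≤ n → MaximalConditions (fun _ : Fin n => m + j * h))
      refine le_trans ?_ (le_of_eq h4.symm)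
      rw [div_eq_mul_one_div]
      exact mul_le_mul_of_nonneg_left h3 hM0
  · obtain ⟨c, hc, hcF⟩ := Pool.Agent.W2helper30.FP.always_sums F hF
    refine ⟨c, hc, fun k δ hδ => ?_⟩
    obtain ⟨h, hh, hA⟩ := hcF k δ hδ
    refine ⟨h, hh, fun f x₀ K hf δ₀ ε₀ hδ₀ hε₀ hε₀2 κ hκ => ?_⟩
    have hf' : Ord f x₀ K := hf
    obtain ⟨M₀, h1⟩ := Pool.Agent.W2helper30.FP.always_an hA hf' δ₀ ε₀ hδ₀ hε₀ hε₀2 κ hκ
    refine ⟨M₀ + 1, fun M hM U hU c₀ hc₀ => ?_⟩
    have hM1 : 0 < M := by omega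
    have hM0 : (0 : ℝ) ≤ M := Nat.cast_nonneg M
    have h2 := h1 M (by omega) U ⟨hU.1, hU.2⟩ c₀ (fun i hi => by
      rw [Finset.mem_Ioc] at hi
      exact hc₀ i hi.1 hi.2)
    have hnn : ∀ m, 0 ≤ (law (Finset.Ioc M (2 * M)) (fun _ => 1 / (M : ℝ))
        (fun i => (c₀ + κ * vl f x₀ U i).toNat)) m :=
      Pool.Agent.N794.DG.law_nonneg (fun _ _ => by positivity) _
    refine ⟨fun n hn => ?_, fun hP => ?_⟩
    · have h3 := (meas_mono hnn (P := fun m => ∃ j ≤ k, ¬ Good n (m + j * h))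
        (R := fun m => ∃ j ≤ k, ¬ Pool.Agent.N141.SG.GoodN n (m + j * h)) (fun m hm => by
          obtain ⟨j, hj, hm⟩ := hm
          exact ⟨j, hj, fun h3 => hm (good_of h3)⟩)).trans (h2.1 n hn)
      have h4 := count_eq hM1 (fun i => (member f x₀ U c₀ κ i).toNat) (fun m => ∃ j ≤ k, ¬ Good n (m + j * h))
      refine (le_of_eq h4).trans ?_
      rw [bad_eq, mul_comm]
      exact mul_le_mul_of_nonneg_right h3 hM0
    · have h3 := (h2.2 hP).trans (meas_mono hnn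
        (P := fun m => ∀ n ∈ F, ∀ j ≤ k, Pool.Agent.N141.SG.GoodN n (m + j * h))
        (R := fun m => ∀ n ∈ F, ∀ j ≤ k, Good n (m + j * h)) (fun m hm n hn j hj =>
          good_of (hm n hn j hj)))
      have h4 := count_eq hM1 (fun i => (member f x₀ U c₀ κ i).toNat)
        (fun m => ∀ n ∈ F, ∀ j ≤ k, Good n (m + j * h))
      refine le_trans ?_ (le_of_eq h4.symm)
      rw [mul_comm]
      exact mul_le_mul_of_nonneg_left h3 hM0
  · rw [bad_eq]
    exact Pool.Agent.N141.SG.badN_lt hn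
  · rw [badU_eq]
    exact Pool.Agent.N141.SG.badU_lt hn
  · simp only [badU_eq]
    exact Pool.Agent.N141.SG.badU_vals

end Pool.Agent.Results.MP_1dafdd_ag.AnalyticSparsePlane
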