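import Pool.Agent.W2helper31.SN.Block

set_option autoImplicit false

/-!
# Fat points in the plane: balanced multiplicities, clusters of four points and further points

`Balanced` multiplicities take few different values with respect to the sum of their squares.

1. For general points of the plane with balanced multiplicities `m i` the fat point scheme imposes
   maximal conditions in all degrees `d` but possibly those with `∑ (m i) ^ 2 ≤ d ^ 2` and
   `(d + 3) ^ 2 ≤ ∑ (m i + 1) ^ 2`.
2. `2 N` general points of multiplicity `q`, `2 N` general points of multiplicity `q + 1` and `k`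
   further general points of multiplicities `e i` which are admissible: maximal conditions in EVERY
   degree, if `(∑ (e i + 1)) ^ 2 ≤ 4 N (q + 1) ^ 2 + ∑ (e i + 1) ^ 2`.
3. In particular if all `e i` are equal to `e`, `N ≥ 36`, `6 e ≤ (2 q + 1) √N` and
   `k (e + 1) ≤ 2 (q + 1) √N`.
-/

namespace Pool.Agent.Results.MP_1dafdd_ag.BalancedMultiplicities

open MvPolynomial Pool.Agent.W2helper31.SN

/-- Forms of degree `d` vanishing to order at least `w i` at the points `(P i 0 : P i 1 : 1)`. -/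
noncomputable def forms {n : ℕ} (P : Fin n → Fin 2 → ℂ) (d : ℕ) (w : Fin n → ℕ) :
    Submodule ℂ (MvPolynomial (Fin 3) ℂ) :=
  homogeneousSubmodule (Fin 3) ℂ d ⊓
    Submodule.restrictScalars ℂ
      (⨅ i : Fin n, (Ideal.span {X 0 - C (P i 0) * X 2, X 1 - C (P i 1) * X 2} :
        Ideal (MvPolynomial (Fin 3) ℂ)) ^ (w i))

/-- The fat point scheme with multiplicities `w` at the points `P` imposes maximal conditions in
degree `d`. -/
def Maximal {n : ℕ} (P : Fin n → Fin 2 → ℂ) (d : ℕ) (w : Fin n → ℕ) : Prop :=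
  (Module.finrank ℂ ↥(forms P d w) : ℤ) =
    max 0 (((d + 2).choose 2 : ℤ) - ∑ i, ((w i + 1).choose 2 : ℤ))

/-- For points `P` of a nonempty open set (the complement of a hypersurface `F = 0`) the conditions
are maximal in all degrees with the property `D`. -/
def MaximalIn {n : ℕ} (w : Fin n → ℕ) (D : ℕ → Prop) : Prop :=
  ∃ F : MvPolynomial (Fin n × Fin 2) ℂ, F ≠ 0 ∧
    ∀ P : Fin n → Fin 2 → ℂ, eval (fun ij : Fin n × Fin 2 => P ij.1 ij.2) F ≠ 0 →
      ∀ d : ℕ, D d → Maximal P d w

/-- The number of the indices with `w i = t`. -/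
def count {n : ℕ} (w : Fin n → ℕ) (t : ℕ) : ℕ := (Finset.univ.filter fun i => w i = t).card

/-- The values of `w` different from `M`. -/
def others {n : ℕ} (w : Fin n → ℕ) (M : ℕ) : Finset ℕ := (Finset.univ.image w).erase M

/-- Balanced multiplicities with the bound `M`: they are positive and at most `M`, the sum of their
squares is at least `36 M ^ 2` and at least `4 (r + 1) M ^ 2`, where `r` is the number of their values
different from `M`, and at most as many of these values `t` are attained at most `M / t` times as `M`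
is attained. -/
def Balanced {n : ℕ} (w : Fin n → ℕ) (M : ℕ) : Prop :=
  0 < M ∧ (∀ i, 1 ≤ w i ∧ w i ≤ M) ∧ 36 * M ^ 2 ≤ ∑ i, w i ^ 2 ∧
    4 * ((others w M).card + 1) * M ^ 2 ≤ ∑ i, w i ^ 2 ∧
    ((others w M).filter fun t => count w t * t ≤ M).card ≤ count w M

/-- Admissible further multiplicities for `N` clusters with the number `B`: they are positive,
`N ≥ 36`, `N ≥ 4 (r + 1)` for the number `r` of their values, and if they are not all at most `B`,
then the largest one `e i` satisfies `36 (e i) ^ 2, 4 (r + 1) (e i) ^ 2 ≤ N B ^ 2`, and at most as many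
values `t < e i` are attained at most `e i / t` times as `e i` is attained. -/
def Admissible (N B : ℕ) {k : ℕ} (e : Fin k → ℕ) : Prop :=
  (∀ i, 1 ≤ e i) ∧ 36 ≤ N ∧ 4 * ((Finset.univ.image e).card + 1) ≤ N ∧
    ((∀ i, e i ≤ B) ∨ ∃ i, (∀ l, e l ≤ e i) ∧ 36 * e i ^ 2 ≤ N * B ^ 2 ∧
      4 * ((Finset.univ.image e).card + 1) * e i ^ 2 ≤ N * B ^ 2 ∧
      ((Finset.univ.image e).filter fun t => t < e i ∧ count e t * t ≤ e i).card ≤ count e (e i))

/-- `2 N` points of multiplicity `q`, `2 N` points of multiplicity `q + 1` and further points. -/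
def mults (N q : ℕ) {k : ℕ} (e : Fin k → ℕ) : Fin (2 * N + 2 * N + k) → ℕ :=
  Fin.append (Fin.append (fun _ => q) (fun _ => q + 1)) e

theorem maximal_of {n : ℕ} {P : Fin n → Fin 2 → ℂ} {d : ℕ} {w : Fin n → ℕ}
    (h : Pool.Agent.H932R3.ExpDim ℂ w P d) : Maximal P d w := by
  unfold Pool.Agent.H932R3.ExpDim at h
  unfold Maximal forms
  rw [h]
  have e : ∑ i, ((w i + 1).choose 2 : ℤ) = ((∑ i, (w i + 1).choose 2 : ℕ) : ℤ) := by
    push_cast
    rfl
  rw [e]
  omega

theorem window {n : ℕ} {w : Fin n → ℕ} {M : ℕ} (h : Balanced w M) :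
    MaximalIn w fun d => d ^ 2 < ∑ i, w i ^ 2 ∨ ∑ i, (w i + 1) ^ 2 < (d + 3) ^ 2 := by
  obtain ⟨h1, h2, h3, h4, h5⟩ := h
  have hB : Bal w M := ⟨h1, fun i => (h2 i).1, fun i => (h2 i).2, h3, h4, h5⟩
  obtain ⟨F, hF, hF'⟩ := Pool.Agent.TH603.Sur.expDim_two (w := w)
    (A := fun d => d ^ 2 < ∑ i, w i ^ 2) (B := fun d => ∑ i, (w i + 1) ^ 2 < (d + 3) ^ 2)
    (∑ i, w i ^ 2) (fun d hd => by
      have : d ≤ d ^ 2 := by nlinarith [sq_nonneg d]
      omega)
    (fun d hd => hB.emp (by exact_mod_cast hd))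
    (fun d hd => hB.sur (by exact_mod_cast hd))
  refine ⟨F.map (algebraMap ℚ ℂ), H932R3.map_ne_zero_of hF, fun P hP d hd => ?_⟩
  rw [MvPolynomial.eval_map] at hP
  exact maximal_of (hF' P hP d hd)

theorem clusters {N q k : ℕ} {e : Fin k → ℕ} (h : Admissible N (2 * q + 1) e)
    (hl : (∑ i, (e i + 1)) ^ 2 ≤ 4 * N * (q + 1) ^ 2 + ∑ i, (e i + 1) ^ 2) :
    MaximalIn (mults N q e) fun _ => True := by
  obtain ⟨h1, h2, h3, h4⟩ := h
  have hA : Adm N (2 * q + 1) e := ⟨h1, by omega, h2, h3, h4⟩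
  obtain ⟨M, hM⟩ := hA.bal le_rfl
  obtain ⟨M', hM'⟩ := hA.bal (Nat.le_succ _)
  have hw : Pool.Agent.TH105.QH.W N (2 * q + 1) e = mults N q e := by
    unfold Pool.Agent.TH105.QH.W mults
    have g1 : (2 * q + 1) / 2 = q := by omega
    have g2 : (2 * q + 1 + 1) / 2 = q + 1 := by omega
    rw [g1, g2]
  obtain ⟨F, hF, hF'⟩ := every (by omega) hM hM' (by
    have g1 : loss N (2 * q + 1) e = ∑ i, (e i + 1) := by
      unfold loss
      rw [if_neg (by rw [Nat.not_even_iff_odd]; exact ⟨q, rfl⟩), zero_add]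
    have g2 : N * (2 * q + 1 + 1) ^ 2 = 4 * N * (q + 1) ^ 2 := by ring
    rw [g1, g2]
    exact hl) (Pool.Agent.TH105.QH.ms_W N (2 * q + 1) e)
  rw [hw] at hF'
  refine ⟨F.map (algebraMap ℚ ℂ), H932R3.map_ne_zero_of hF, fun P hP d _ => ?_⟩
  rw [MvPolynomial.eval_map] at hP
  exact maximal_of (hF' P hP d)

theorem result :
    -- 1. balanced multiplicities: all degrees outside of a window
    (∀ (n M : ℕ) (m : Fin n → ℕ), Balanced m M →
      MaximalIn m fun d => d ^ 2 < ∑ i, m i ^ 2 ∨ ∑ i, (m i + 1) ^ 2 < (d + 3) ^ 2) ∧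
    -- 2. clusters and further points: every degree
    (∀ (N q k : ℕ) (e : Fin k → ℕ), Admissible N (2 * q + 1) e →
      (∑ i, (e i + 1)) ^ 2 ≤ 4 * N * (q + 1) ^ 2 + ∑ i, (e i + 1) ^ 2 →
      MaximalIn (mults N q e) fun _ => True) ∧
    -- 3. equal further multiplicities
    (∀ N q k e : ℕ, 36 ≤ N → 1 ≤ e → 6 * (e : ℝ) ≤ (2 * q + 1) * √(N : ℝ) →
      k * ((e : ℝ) + 1) ≤ 2 * (q + 1) * √(N : ℝ) →
      MaximalIn (mults N q fun _ : Fin k => e) fun _ => True) := by
  refine ⟨fun n M m h => window h, fun N q k e h hl => clusters h hl, ?_⟩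
  intro N q k e hN he h1 h2
  have hn : √(N : ℝ) ^ 2 = N := Real.sq_sqrt (Nat.cast_nonneg _)
  have h36 : 36 * e ^ 2 ≤ N * (2 * q + 1) ^ 2 := by
    have h3 := pow_le_pow_left₀ (by positivity) h1 2
    rw [mul_pow, mul_pow, hn] at h3
    norm_num at h3
    rw [mul_comm N]
    exact_mod_cast h3
  have hcard : (Finset.univ.image (fun _ : Fin k => e)).card ≤ 1 := by
    refine (Finset.card_le_card (t := {e}) ?_).trans (Finset.card_singleton _).le
    intro t ht
    rw [Finset.mem_image] at ht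
    obtain ⟨i, -, rfl⟩ := ht
    exact Finset.mem_singleton_self _
  refine clusters ⟨fun _ => he, hN, by omega, ?_⟩ ?_
  · rcases Nat.eq_zero_or_pos k with hk | hk
    · left
      intro i
      exact absurd i.2 (by omega)
    · right
      refine ⟨⟨0, hk⟩, fun _ => le_rfl, h36, ?_, ?_⟩
      · refine le_trans (Nat.mul_le_mul_right _ ?_) h36
        omega
      · have : (Finset.univ.image (fun _ : Fin k => e)).filter (fun t => t < e ∧
            count (fun _ : Fin k => e) t * t ≤ e) = ∅ := by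
          rw [Finset.filter_eq_empty_iff]
          intro t ht
          rw [Finset.mem_image] at ht
          obtain ⟨i, -, rfl⟩ := ht
          omega
        rw [this]
        exact Nat.zero_le _
  · have h3 := pow_le_pow_left₀ (by positivity) h2 2
    have e1 : (2 * ((q : ℝ) + 1) * √(N : ℝ)) ^ 2 = 4 * N * ((q : ℝ) + 1) ^ 2 := by
      rw [mul_pow, hn]; ring
    rw [e1] at h3
    have h4 : (k * (e + 1)) ^ 2 ≤ 4 * N * (q + 1) ^ 2 := by exact_mod_cast h3
    have h5 : ∑ _i : Fin k, (e + 1) = k * (e + 1) := by simp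
    rw [h5]
    omega

end Pool.Agent.Results.MP_1dafdd_ag.BalancedMultiplicities
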